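import Mathlib
import Pool.Agent.Y272.LC.Stm2

set_option autoImplicit false

/-!
# UNI: points between two rays with a common landing point, uniformly in the parameter

The bounds on the two legs and on the cap are open conditions on compact sets; they persist for
parameters near the base parameter. A point between the two rays is enclosed by the closed curve
(ENC), and points at a larger distance than the whole curve are not enclosed (FAR).
-/

open Complex Filter Topology Metric Set MeasureTheory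

namespace Pool.Agent.Y809.LC

open Pool.Agent.H712R2 Pool.Agent.H713R2 Pool.Agent.H713R2.AR Pool.Agent.W677.Mar
  Pool.Agent.Y272.TY Pool.Agent.Y272.LC

theorem cgr (hG : St_Grn) {d : ℕ} (hd : 2 ≤ d) : Continuous (fun c : ℂ => green d c 0) := by
  have h1 : Continuous (fun c : ℂ => ((c, 0) : ℂ × ℂ)) := by fun_prop
  have h2 := (hG d hd).1
  exact Continuous.comp (g := fun q : ℂ × ℂ => green d q.1 q.2) (f := fun c : ℂ => ((c, 0) : ℂ × ℂ))
    h2 h1

theorem opn (hG : St_Grn) {d : ℕ} (hd : 2 ≤ d) : IsOpen {q : ℂ × ℂ | green d q.1 0 < q.2.re} :=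
  isOpen_lt ((cgr hG hd).comp continuous_fst) (Complex.continuous_re.comp continuous_snd)

theorem re_zt (s t : ℝ) : (zt s t).re = s := by simp [zt]

theorem czt (l : ℝ) : Continuous (fun t : ℝ => zt l t) := by
  unfold zt
  fun_prop

theorem leg {c0 w : ℂ} {ε l η : ℝ} {T : ℂ → ℝ → ℂ} (hε : 0 < ε)
    (hT : ContinuousOn (fun q : ℂ × ℝ => T q.1 q.2) (ball c0 ε ×ˢ Ici 0))
    (h : ∀ s ∈ Icc 0 l, ‖T c0 s - w‖ < η) : ∀ᶠ c in 𝓝 c0, ∀ s ∈ Icc 0 l, ‖T c s - w‖ < η := by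
  have key : ∀ᶠ c in 𝓝 c0, ∀ s ∈ Icc 0 l, c ∈ ball c0 ε ∧ 0 ≤ s → ‖T c s - w‖ < η := by
    apply isCompact_Icc.eventually_forall_of_forall_eventually
      (P := fun c s => c ∈ ball c0 ε ∧ 0 ≤ s → ‖T c s - w‖ < η)
    intro s hs
    have h1 : ContinuousWithinAt (fun q : ℂ × ℝ => ‖T q.1 q.2 - w‖) (ball c0 ε ×ˢ Ici 0) (c0, s) :=
      ((hT (c0, s) ⟨mem_ball_self hε, hs.1⟩).sub continuousWithinAt_const).norm
    have h2 : ∀ᶠ q : ℂ × ℝ in 𝓝[ball c0 ε ×ˢ Ici 0] (c0, s), ‖T q.1 q.2 - w‖ < η :=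
      h1 (Iio_mem_nhds (h s hs))
    exact (eventually_nhdsWithin_iff.1 h2)
  filter_upwards [key, ball_mem_nhds c0 hε] with c hc hcb s hs
  exact hc s hs ⟨hcb, hs.1⟩

theorem cap (hG : St_Grn) {d : ℕ} (hd : 2 ≤ d) {Φ : ℂ → ℂ → ℂ} (hΦ : IsBott d Φ) {c0 w : ℂ}
    {l a b η : ℝ} (h0 : green d c0 0 = 0) (hl : 0 < l) (h : ∀ t ∈ Icc a b, ‖Φ c0 (zt l t) - w‖ < η) :
    ∀ᶠ c in 𝓝 c0, ∀ t ∈ Icc a b, ‖Φ c (zt l t) - w‖ < η := by
  apply isCompact_Icc.eventually_forall_of_forall_eventually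
    (P := fun c t => ‖Φ c (zt l t) - w‖ < η)
  intro t ht
  have hmem : ((c0, zt l t) : ℂ × ℂ) ∈ {q : ℂ × ℂ | green d q.1 0 < q.2.re} := by
    change green d c0 0 < (zt l t).re
    rw [h0, re_zt]
    exact hl
  have h1 : ContinuousAt (fun q : ℂ × ℂ => Φ q.1 q.2) (c0, zt l t) :=
    hΦ.cont.continuousAt ((opn hG hd).mem_nhds hmem)
  have h2 : ContinuousAt (fun q : ℂ × ℝ => ((q.1, zt l q.2) : ℂ × ℂ)) (c0, t) :=
    (continuous_fst.prodMk ((czt l).comp continuous_snd)).continuousAt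
  have h3 : ContinuousAt (fun q : ℂ × ℝ => ‖Φ q.1 (zt l q.2) - w‖) (c0, t) :=
    ((ContinuousAt.comp (f := fun q : ℂ × ℝ => ((q.1, zt l q.2) : ℂ × ℂ))
      (g := fun q : ℂ × ℂ => Φ q.1 q.2) h1 h2).sub continuousAt_const).norm
  exact h3 (Iio_mem_nhds (h t ht))

/-- UNI -/
theorem t (hG : St_Grn) (hF : St_Far) (hE : St_Enc) : St_Uni := by
  intro d Φ hd hΦ c0 w ε l a b η T0 T1 hε h0 hl hab hb1 hR0 hR1 heq hT hC
  have e1 := leg hε hR0.cont (fun s hs => (hT s hs).1)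
  have e2 := leg hε hR1.cont (fun s hs => (hT s hs).2)
  have e3 := cap hG hd hΦ h0 hl hC
  have e4 : ∀ᶠ c in 𝓝 c0, green d c 0 < l := by
    have h1 : ContinuousAt (fun c : ℂ => green d c 0) c0 := (cgr hG hd).continuousAt
    have h2 : green d c0 0 < l := by rw [h0]; exact hl
    exact h1 (Iio_mem_nhds h2)
  have e5 := (e1.and e2).and (e3.and e4)
  obtain ⟨r, hr, hr2⟩ := Metric.eventually_nhds_iff_ball.1 e5
  refine ⟨min r ε, lt_min hr hε, min_le_right _ _, fun c hc => ?_⟩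
  have hcr : c ∈ ball c0 r := ball_subset_ball (min_le_left _ _) hc
  have hcε : c ∈ ball c0 ε := ball_subset_ball (min_le_right _ _) hc
  obtain ⟨⟨g1, g2⟩, g3, g4⟩ := hr2 c hcr
  refine ⟨g4, fun s hs => ⟨g1 s hs, g2 s hs⟩, g3, ?_⟩
  intro s t hs hsl hat htb
  by_contra hcon
  push Not at hcon
  have c0' : ContinuousOn (T0 c) (Icc 0 l) := by
    have h1 : ContinuousOn (fun s : ℝ => ((c, s) : ℂ × ℝ)) (Icc 0 l) :=
      (continuous_const.prodMk continuous_id).continuousOn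
    exact ContinuousOn.comp (g := fun q : ℂ × ℝ => T0 q.1 q.2) hR0.cont h1
      (fun s hs => ⟨hcε, hs.1⟩)
  have c1' : ContinuousOn (T1 c) (Icc 0 l) := by
    have h1 : ContinuousOn (fun s : ℝ => ((c, s) : ℂ × ℝ)) (Icc 0 l) :=
      (continuous_const.prodMk continuous_id).continuousOn
    exact ContinuousOn.comp (g := fun q : ℂ × ℝ => T1 q.1 q.2) hR1.cont h1
      (fun s hs => ⟨hcε, hs.1⟩)
  have c2' : ContinuousOn (fun t => Φ c (zt l t)) (Icc a b) := by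
    have h1 : ContinuousOn (fun t : ℝ => ((c, zt l t) : ℂ × ℂ)) (Icc a b) :=
      (continuous_const.prodMk (czt l)).continuousOn
    refine ContinuousOn.comp (g := fun q : ℂ × ℂ => Φ q.1 q.2) hΦ.cont h1 (fun t _ => ?_)
    change green d c 0 < (zt l t).re
    rw [re_zt]
    exact g4
  refine hE d Φ hd hΦ c (T0 c) (T1 c) l a b hab hb1 c0' c1' (heq c hcε)
    (fun s hs hg => ⟨hR0.eq c hcε s hg, hR1.eq c hcε s hg⟩)
    (fun s hs => ⟨hR0.grn c hcε s hs.1, hR1.grn c hcε s hs.1⟩) s t hs hsl hat htb ?_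
  exact hF (T0 c) (T1 c) (fun t => Φ c (zt l t)) l a b η (Φ c (zt s t)) w hl.le hab.le c0' c1' c2'
    (heq c hcε) (hR0.eq c hcε l g4) (hR1.eq c hcε l g4) (fun s hs => (g1 s hs).le)
    (fun s hs => (g2 s hs).le) (fun t ht => (g3 t ht).le) hcon

end Pool.Agent.Y809.LC
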